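import Mathlib

set_option autoImplicit false
set_option maxHeartbeats 400000

open scoped MatrixGroups PowerSeries.WithPiTopology

namespace Pool.Agent.Results.MP_d2e4ca_al.SL2PowerSeries

theorem pivot {A : Type*} [CommRing A] [IsDomain A] (p q r vp vq vr wp wq wr : A) (hp : p ≠ 0)
    (h1 : p * vq = q * vp) (h2 : p * vr = r * vp) (h3 : p * wq = q * wp) (h4 : p * wr = r * wp) :
    vp * wq = vq * wp ∧ vp * wr = vr * wp ∧ vq * wr = vr * wq := by
  refine ⟨mul_left_cancel₀ hp ?_, mul_left_cancel₀ hp ?_, mul_left_cancel₀ (mul_ne_zero hp hp) ?_⟩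
  · linear_combination vp * h3 - wp * h1
  · linear_combination vp * h4 - wp * h2
  · linear_combination p * wr * h1 - p * wq * h2 + q * vp * h4 - r * vp * h3

theorem comm_iff {A : Type*} [CommRing A] (u v : Matrix (Fin 2) (Fin 2) A) : u * v = v * u ↔
    u 0 1 * v 1 0 = u 1 0 * v 0 1 ∧ u 0 1 * (v 0 0 - v 1 1) = (u 0 0 - u 1 1) * v 0 1 ∧
      u 1 0 * (v 0 0 - v 1 1) = (u 0 0 - u 1 1) * v 1 0 := by
  constructor
  · intro h
    have h1 := congrFun (congrFun h 0) 0
    have h2 := congrFun (congrFun h 0) 1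
    have h3 := congrFun (congrFun h 1) 0
    simp only [Matrix.mul_apply, Fin.sum_univ_two] at h1 h2 h3
    exact ⟨by linear_combination h1, by linear_combination -h2, by linear_combination h3⟩
  · rintro ⟨h1, h2, h3⟩
    ext i j
    fin_cases i <;> fin_cases j <;> simp only [Matrix.mul_apply, Fin.sum_univ_two, Fin.zero_eta,
      Fin.mk_one, Fin.isValue]
    · linear_combination h1
    · linear_combination -h2
    · linear_combination h3
    · linear_combination -h1

theorem ca {A : Type*} [CommRing A] [IsDomain A] (h2 : (2 : A) = 0) (x y z : SL(2, A)) (hx : x ≠ 1)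
    (hy : x * y = y * x) (hz : x * z = z * x) : y * z = z * y := by
  have hy' := (comm_iff x.1 y.1).1 (congrArg Subtype.val hy)
  have hz' := (comm_iff x.1 z.1).1 (congrArg Subtype.val hz)
  apply Subtype.ext
  refine (comm_iff y.1 z.1).2 ?_
  obtain ⟨a1, a2, a3⟩ := hy'
  obtain ⟨b1, b2, b3⟩ := hz'
  by_cases hb : x.1 0 1 = 0
  · by_cases hc : x.1 1 0 = 0
    · by_cases ha : x.1 0 0 - x.1 1 1 = 0
      · exfalso
        apply hx
        have hd := x.2
        rw [Matrix.det_fin_two] at hd
        have e : (x.1 0 0 - 1) ^ 2 = 0 := by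
          linear_combination hd + x.1 0 0 * ha + x.1 1 0 * hb + (1 - x.1 0 0) * h2
        have e1 : x.1 0 0 = 1 := sub_eq_zero.1 (pow_eq_zero_iff (two_ne_zero) |>.1 e)
        have e2 : x.1 1 1 = 1 := by linear_combination e1 - ha
        apply Subtype.ext
        ext i j
        fin_cases i <;> fin_cases j <;> simp [e1, e2, hb, hc]
      · obtain ⟨c1, c2, c3⟩ := pivot _ _ _ _ _ _ _ _ _ ha a2.symm a3.symm b2.symm b3.symm
        exact ⟨c3, by linear_combination -c1, by linear_combination -c2⟩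
    · obtain ⟨c1, c2, c3⟩ := pivot _ _ _ _ _ _ _ _ _ hc a1.symm a3 b1.symm b3
      exact ⟨by linear_combination -c1, c3, c2⟩
  · exact pivot _ _ _ _ _ _ _ _ _ hb a1 a2 b1 b2

theorem not_solvable {F : Type} [Field F] {a : F} (ha : a ≠ 0) (hasq : a ^ 2 ≠ 1) :
    ¬ Group.IsSolvable SL(2, F) := by
  intro h
  haveI : Nontrivial SL(2, F) := ⟨⟨1, ⟨!![1, 1; 0, 1], by simp⟩, fun e => by
    have := congrFun (congrFun (congrArg Subtype.val e) 0) 1
    simp at this⟩⟩
  exact (Group.IsSolvable.commutator_lt_top_of_nontrivial SL(2, F)).ne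
    (Matrix.SL2.commutator_eq_top ha hasq)

theorem main (F : Type) [Field F] [Finite F] (h2 : (2 : F) = 0) {a : F} (ha : a ≠ 0)
    (hasq : a ^ 2 ≠ 1) : ∃ (G : Type) (_ : Group G) (_ : TopologicalSpace G),
    IsTopologicalGroup G ∧ CompactSpace G ∧ T2Space G ∧ TotallyDisconnectedSpace G ∧ Infinite G ∧
    (∀ x : G, x ≠ 1 → ∀ y ∈ Subgroup.centralizer {x}, ∀ z ∈ Subgroup.centralizer {x},
      y * z = z * y) ∧
    ∃ U : OpenNormalSubgroup G, ¬ Group.IsSolvable (G ⧸ U.toSubgroup) ∧
      Nonempty (G ⧸ U.toSubgroup ≃* SL(2, F)) := by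
  letI : TopologicalSpace F := ⊥
  haveI : DiscreteTopology F := ⟨rfl⟩
  haveI : IsTopologicalRing F := inferInstance
  haveI : CompactSpace (PowerSeries F) := inferInstanceAs (CompactSpace ((Unit →₀ ℕ) → F))
  haveI : TotallyDisconnectedSpace (PowerSeries F) :=
    inferInstanceAs (TotallyDisconnectedSpace ((Unit →₀ ℕ) → F))
  haveI : CompactSpace (Matrix (Fin 2) (Fin 2) (PowerSeries F)) :=
    inferInstanceAs (CompactSpace (Fin 2 → Fin 2 → PowerSeries F))
  haveI : TotallyDisconnectedSpace (Matrix (Fin 2) (Fin 2) (PowerSeries F)) :=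
    inferInstanceAs (TotallyDisconnectedSpace (Fin 2 → Fin 2 → PowerSeries F))
  have hce := Matrix.SpecialLinearGroup.isClosedEmbedding_val (n := Fin 2) (R := PowerSeries F)
  have h2' : (2 : PowerSeries F) = 0 := by
    rw [← map_ofNat (PowerSeries.C (R := F)) 2, h2, map_zero]
  let f : SL(2, PowerSeries F) →* SL(2, F) :=
    Matrix.SpecialLinearGroup.map (PowerSeries.constantCoeff (R := F))
  have hf : Function.Surjective f := by
    intro g
    refine ⟨Matrix.SpecialLinearGroup.map (PowerSeries.C (R := F)) g, ?_⟩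
    ext i j
    simp [f]
  have hfc : Continuous f :=
    (PowerSeries.WithPiTopology.continuous_constantCoeff F).specialLinearGroup_map
  have e := QuotientGroup.quotientKerEquivOfSurjective f hf
  refine ⟨SL(2, PowerSeries F), inferInstance, inferInstance, inferInstance, hce.compactSpace,
    hce.isEmbedding.t2Space, hce.isEmbedding.isTotallyDisconnected_range.1
      (isTotallyDisconnected_of_totallyDisconnectedSpace _), ?_, ?_,
    ⟨⟨f.ker, (isOpen_discrete {1}).preimage hfc⟩, inferInstance⟩, ?_, ⟨e⟩⟩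
  · refine Infinite.of_injective
      (fun n : ℕ => (⟨!![1, PowerSeries.X ^ n; 0, 1], by simp⟩ : SL(2, PowerSeries F))) ?_
    intro m n h
    have := congrFun (congrFun (congrArg Subtype.val h) 0) 1
    simp only [Matrix.of_apply, Matrix.cons_val', Matrix.cons_val_one, Matrix.cons_val_fin_one,
      Matrix.cons_val_zero] at this
    have h3 := congrArg (PowerSeries.coeff m) this
    rw [PowerSeries.coeff_X_pow, PowerSeries.coeff_X_pow] at h3
    by_contra hne
    simp [hne] at h3
  · intro x hx y hy z hz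
    exact ca h2' x y z hx (hy x rfl) (hz x rfl)
  · intro h
    exact not_solvable ha hasq (Group.isSolvable_of_surjective (f := e.toMonoidHom) e.surjective)

theorem result (m : ℕ) (hm : 2 ≤ m) : ∃ (G : Type) (_ : Group G) (_ : TopologicalSpace G),
    IsTopologicalGroup G ∧ CompactSpace G ∧ T2Space G ∧ TotallyDisconnectedSpace G ∧ Infinite G ∧
    (∀ x : G, x ≠ 1 → ∀ y ∈ Subgroup.centralizer {x}, ∀ z ∈ Subgroup.centralizer {x},
      y * z = z * y) ∧
    ∃ U : OpenNormalSubgroup G, ¬ Group.IsSolvable (G ⧸ U.toSubgroup) ∧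
      Nonempty (G ⧸ U.toSubgroup ≃* SL(2, GaloisField 2 m)) := by
  have h2 : (2 : GaloisField 2 m) = 0 := CharP.ofNat_eq_zero _ 2
  have hc : Nat.card (GaloisField 2 m) = 2 ^ m := GaloisField.card 2 m (by omega)
  have : ∃ a : GaloisField 2 m, a ≠ 0 ∧ a ≠ 1 := by
    by_contra hcon
    push Not at hcon
    have hs : Function.Surjective (fun b : Bool => if b then (1 : GaloisField 2 m) else 0) := by
      intro a
      by_cases h : a = 0
      · exact ⟨false, by simp [h]⟩
      · exact ⟨true, by simp [hcon a h]⟩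
    have := Nat.card_le_card_of_surjective _ hs
    rw [hc] at this
    have h4 : 2 ^ 2 ≤ 2 ^ m := Nat.pow_le_pow_right (by norm_num) hm
    simp at this
    omega
  obtain ⟨a, ha, ha1⟩ := this
  refine main _ h2 ha fun h => ha1 ?_
  have e : (a - 1) ^ 2 = 0 := by linear_combination h + (1 - a) * h2
  exact sub_eq_zero.1 (pow_eq_zero_iff two_ne_zero |>.1 e)

end Pool.Agent.Results.MP_d2e4ca_al.SL2PowerSeries
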